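import Pool.Agent.X146.FD.TreeCount

/-!
# Vertex-fault-tolerant graphs: the excess per vertex for large diameter bounds

For every `d` the edge excess per vertex is bounded below by a positive constant, and both bounds
decay exponentially in `d` for `k ≥ 3`.
-/

set_option autoImplicit false

open Filter Topology

namespace Pool.Agent.Results.MP_1438b7_co.DecayInDistance

open X146FD

/-- (1) For all `k ≥ 1`, `d ≥ 3` the lower limit of `phi n d k / n` is at least `1 / (2 K)` with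
`K = 1 + (k + 1) * (1 + k + ⋯ + k ^ (d / 2 - 2))`, in particular it is positive.
(2) For all `k ≥ 2`, `t ≥ 0` and `d ≥ 4 t + 5` the excess is at most `n / (2 N)` plus a constant
depending on `k` and `t` only, `N = 1 + (k - 1) + ⋯ + (k - 1) ^ t`. -/
theorem result :
    (∀ k d : ℕ, 1 ≤ k → 3 ≤ d → ∀ ε : ℝ, 0 < ε → ∀ᶠ n : ℕ in atTop,
      (1 / (2 * (1 + ((k : ℝ) + 1) * ∑ i ∈ Finset.range (d / 2 - 1), (k : ℝ) ^ i)) - ε) * n
        ≤ phi n d k) ∧
    (∀ k d t n : ℕ, 2 ≤ k → 4 * t + 5 ≤ d → k ≤ n →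
      phi n d k ≤ (n : ℝ) / (2 * ∑ i ∈ Finset.range (t + 1), ((k : ℝ) - 1) ^ i) +
        (k : ℝ) ^ 2 * ((∑ i ∈ Finset.range (t + 1), ((k : ℝ) - 1) ^ i) + 1) / 2) := by
  constructor
  · intro k d hk hd ε hε
    have h := phi_lower d k hk hd ε hε
    have e : ((Kc k (d / 2) : ℕ) : ℝ) =
        1 + ((k : ℝ) + 1) * ∑ i ∈ Finset.range (d / 2 - 1), (k : ℝ) ^ i := by
      unfold Kc
      push_cast
      ring
    rw [e] at h
    exact h
  · intro k d t n hk hd hn
    obtain ⟨q, rfl⟩ : ∃ q, k = q + 1 := ⟨k - 1, by omega⟩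
    have h := phi_tree n d q t (by omega) hd hn
    have e : ((Nn q (t + 1) : ℕ) : ℝ) =
        ∑ i ∈ Finset.range (t + 1), (((q + 1 : ℕ) : ℝ) - 1) ^ i := by
      rw [Nn_eq]
      push_cast
      refine Finset.sum_congr rfl fun i _ => ?_
      ring
    rw [e] at h
    push_cast at h ⊢
    exact h

end Pool.Agent.Results.MP_1438b7_co.DecayInDistance
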