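import Pool.Agent.X146.FD.Limit5

/-!
# Vertex-fault-tolerant graphs of diameter five

The edge excess divided by the number of vertices converges to `1 / 2` for `d = 5` and every `k`.
-/

set_option autoImplicit false

open Filter Topology

namespace Pool.Agent.Results.MP_1438b7_co.DistanceFive

open X146FD

/-- For `d = 5` and every `k ≥ 1` the limit of `phi n d k / n` exists; it is `1 / 2`. -/
theorem result (k : ℕ) (hk : 1 ≤ k) :
    Tendsto (fun n : ℕ => phi n 5 k / n) atTop (𝓝 (1 / 2)) :=
  lim5 k hk

end Pool.Agent.Results.MP_1438b7_co.DistanceFive
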